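import Pool.Agent.H87.QK.MainE

/-!
# MP_1bb854_co: the exact value for `k = n - 2`
-/

set_option autoImplicit false

namespace Pool.Agent.Results.MP_1bb854_co.DegreeNMinusTwo

/-- The detours of a finite graph: its longest paths, as subgraphs (a path and its reverse are the same
subgraph). -/
def detours {V : Type} (G : SimpleGraph V) : Set G.Subgraph :=
  {S | ∃ (u v : V) (p : G.Walk u v), p.IsPath ∧
    (∀ (u' v' : V) (p' : G.Walk u' v'), p'.IsPath → p'.length ≤ p.length) ∧ S = p.toSubgraph}

open Classical in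
/-- `q k n`: the minimum number of detours of a Hamiltonian graph of order `n` with minimum
degree `k`. -/
noncomputable def q (k n : ℕ) : ℕ :=
  sInf {c : ℕ | ∃ G : SimpleGraph (Fin n), G.IsHamiltonian ∧ G.minDegree = k ∧
    c = (detours G).ncard}

private theorem q_eq (k n : ℕ) : q k n = Pool.Agent.H87.QK.q k n := rfl

theorem result (n : ℕ) (hn : 5 ≤ n) :
    2 * (q (n - 2) n : ℤ) =
      ∑ j ∈ Finset.range (n / 2 + 1), (-2) ^ j * ((n / 2).choose j : ℤ) * ((n - j).factorial : ℤ) := by
  rw [q_eq]
  exact Pool.Agent.H87.QK.exact hn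

end Pool.Agent.Results.MP_1bb854_co.DegreeNMinusTwo
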