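import Pool.Agent.H87.QK.Main

/-!
# MP_1bb854_co: the growth of the minimum number of detours, for all `k` and `n`

For all `3 ≤ k ≤ n - 2`, with `m = min (2 k) n` and `C = 2 ^ 42`,
`n * m! / C ^ m ≤ q k n ≤ C ^ m * n * m!`.
-/

set_option autoImplicit false

namespace Pool.Agent.Results.MP_1bb854_co.Growth

/-- The detours of a finite graph: its longest paths, as subgraphs (a path and its reverse are the same
subgraph). -/
def detours {V : Type} (G : SimpleGraph V) : Set G.Subgraph :=
  {S | ∃ (u v : V) (p : G.Walk u v), p.IsPath ∧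
    (∀ (u' v' : V) (p' : G.Walk u' v'), p'.IsPath → p'.length ≤ p.length) ∧ S = p.toSubgraph}

open Classical in
/-- `q k n`: the minimum number of detours of a Hamiltonian graph of order `n` with minimum
degree `k`. -/
noncomputable def q (k n : ℕ) : ℕ :=
  sInf {c : ℕ | ∃ G : SimpleGraph (Fin n), G.IsHamiltonian ∧ G.minDegree = k ∧
    c = (detours G).ncard}

private theorem q_eq (k n : ℕ) : q k n = Pool.Agent.H87.QK.q k n := rfl

/-- The minimum number `q k n` of detours is between `n * m! / C ^ m` and `C ^ m * n * m!`, where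
`m = min (2 k) n`, `C = 2 ^ 42`. -/
theorem result (k n : ℕ) (hk : 3 ≤ k) (hn : k + 2 ≤ n) :
    n * (min (2 * k) n).factorial ≤ (2 ^ 42) ^ min (2 * k) n * q k n ∧
      q k n ≤ (2 ^ 42) ^ min (2 * k) n * (n * (min (2 * k) n).factorial) := by
  rw [q_eq]
  exact ⟨Pool.Agent.H87.QK.lower hk hn, Pool.Agent.H87.QK.upper hk hn⟩

end Pool.Agent.Results.MP_1bb854_co.Growth
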